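import Mathlib

namespace Pool.Agent.Results.MP_393150_al.QuotientCancel

lemma idem {S : Type*} [Semigroup S] [Finite S] (a : S) :
    ∃ e b : S, e * e = e ∧ a * e = e * a ∧ a * b = e ∧ b * a = e := by
  have : Finite (WithOne S) := inferInstanceAs (Finite (Option S))
  obtain ⟨i, j, hij, h⟩ : ∃ i j : ℕ, i < j ∧ (a : WithOne S) ^ i = (a : WithOne S) ^ j := by
    obtain ⟨i, j, hne, h⟩ := Finite.exists_ne_map_eq_of_infinite (fun n : ℕ => (a : WithOne S) ^ n)
    rcases lt_or_gt_of_ne hne with h1 | h1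
    exacts [⟨i, j, h1, h⟩, ⟨j, i, h1, h.symm⟩]
  obtain ⟨d, rfl⟩ := Nat.exists_eq_add_of_lt hij
  have hp : ∀ t, (a : WithOne S) ^ (i + t * (d + 1)) = (a : WithOne S) ^ i := by
    intro t
    induction t with
    | zero => simp
    | succ t ih =>
      rw [show i + (t + 1) * (d + 1) = i + t * (d + 1) + (d + 1) by ring, pow_add, ih, ← pow_add,
        ← add_assoc, ← h]
  have hc : ∀ n : ℕ, ∃ s : S, (s : WithOne S) = (a : WithOne S) ^ (n + 1) := by
    intro n
    induction n with
    | zero => exact ⟨a, by simp⟩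
    | succ n ih => obtain ⟨s, hs⟩ := ih; exact ⟨s * a, by rw [WithOne.coe_mul, hs, ← pow_succ]⟩
  obtain ⟨m, hm⟩ : ∃ m, (i + 2) * (d + 1) = m + 2 := ⟨(i + 2) * (d + 1) - 2, by
    have : 2 ≤ (i + 2) * (d + 1) := by nlinarith
    omega⟩
  obtain ⟨e, he⟩ := hc (m + 1)
  obtain ⟨b, hb⟩ := hc m
  obtain ⟨q, hq⟩ : ∃ q, m + 2 = q + i := ⟨m + 2 - i, by
    have : i ≤ (i + 2) * (d + 1) := by nlinarith
    omega⟩
  refine ⟨e, b, ?_, ?_, ?_, ?_⟩ <;> apply WithOne.coe_inj.mp <;>
    simp only [WithOne.coe_mul, he, hb]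
  · rw [← pow_add, show m + 1 + 1 + (m + 1 + 1) = q + (i + (i + 2) * (d + 1)) by omega, pow_add, hp,
      ← pow_add, ← hq]
  · rw [← pow_succ, ← pow_succ']
  · rw [← pow_succ']
  · rw [← pow_succ]

/-- If o-conjugacy is a congruence on a finite semigroup, the quotient is cancellative. -/
theorem result {S : Type*} [Semigroup S] [Finite S] (c : Con S)
    (hc : ∀ a b, c a b ↔ ∃ g h : S, a * g = g * b ∧ b * h = h * a) :
    IsCancelMul c.Quotient := by
  have h1 : ∀ e f : S, e * e = e → f * f = f → (e : c.Quotient) = f := fun e f he hf =>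
    c.eq.mpr ((hc e f).mpr ⟨e * f, f * e, by rw [← mul_assoc, he, mul_assoc, hf],
      by rw [← mul_assoc, hf, mul_assoc, he]⟩)
  have h2 : ∀ e a : S, e * e = e → (e : c.Quotient) * a = a ∧ (a : c.Quotient) * e = a := by
    intro e a he
    obtain ⟨f, b, hf, hcm, -, -⟩ := idem a
    have : ((f * a : S) : c.Quotient) = a := c.eq.mpr ((hc _ _).mpr ⟨f, f,
      by rw [mul_assoc, hcm, ← mul_assoc, hf], by rw [← mul_assoc, hf, hcm]⟩)
    rw [h1 e f he hf, ← Con.coe_mul, ← Con.coe_mul, hcm]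
    exact ⟨this, this⟩
  refine { mul_left_cancel := fun x y z h => ?_, mul_right_cancel := fun x y z h => ?_ } <;>
    induction x using Con.induction_on with | H x => ?_ <;>
    induction y using Con.induction_on with | H y => ?_ <;>
    induction z using Con.induction_on with | H z => ?_ <;>
    obtain ⟨e, b, he, -, h3, h4⟩ := idem x
  · have := congrArg (fun t => (b : c.Quotient) * t) h
    simp only [← mul_assoc, ← Con.coe_mul, h4] at this
    rwa [Con.coe_mul, Con.coe_mul, (h2 e y he).1, (h2 e z he).1] at this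
  · have := congrArg (fun t => t * (b : c.Quotient)) h
    simp only [mul_assoc, ← Con.coe_mul, h3] at this
    rwa [Con.coe_mul, Con.coe_mul, (h2 e y he).2, (h2 e z he).2] at this

end Pool.Agent.Results.MP_393150_al.QuotientCancel
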